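import Pool.Agent.Lib_helper59.A1.Defs
import Pool.Agent.Lib_helper28.A1.T3b
import Pool.Agent.Lib_helper95.RC.Final02

/-!
# MP_859019_mp, project A1: the statements of the blocks
-/

set_option autoImplicit false

open scoped BigOperators ComplexOrder Kronecker MatrixOrder
open MeasureTheory Set Matrix

namespace Pool.Agent.A1W

open Pool.Agent.RC Pool.Agent.A1

/-- SIM: simultaneous diagonalisation -/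
def SIMStmt : Prop :=
  ∀ (ν : Type) [Fintype ν] [DecidableEq ν] (N J : Matrix ν ν ℂ), N.PosDef → J.IsHermitian →
    ∃ (C C' : Matrix ν ν ℂ) (l : ν → ℝ),
      C * C' = 1 ∧ C' * C = 1 ∧ N = Cᴴ * C ∧ J = Cᴴ * dg l * C

/-- WF: the formula for `Tr B Z⁻¹` in the normal form -/
def WFStmt : Prop :=
  ∀ (ν : Type) [Fintype ν] [DecidableEq ν] (C C' : Matrix ν ν ℂ) (l : ν → ℝ),
    C * C' = 1 → C' * C = 1 → ∀ w : ℝ,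
      IsUnit (Cᴴ * C + (Complex.I * w) • (Cᴴ * dg l * C)) ∧
      ∀ B : Matrix ν ν ℂ, (B * (Cᴴ * C + (Complex.I * w) • (Cᴴ * dg l * C))⁻¹).trace =
        ∑ k, (C'ᴴ * B * C') k k / (1 + (Complex.I * w) * (l k : ℂ))

/-- WI: the `w`-integrals -/
def WIStmt : Prop :=
  ∀ (ν : Type) [Fintype ν] [DecidableEq ν] (N J B : Matrix ν ν ℂ),
    N.PosDef → J.IsHermitian → B.IsHermitian →
      (IsUnit J.det → ∃ S, IsS J N S) ∧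
      (∀ S, IsS J N S →
        IntegrableOn (fun w : ℝ => ((B * (N + (Complex.I * w) • J)⁻¹).trace).re) (Ioi 0) ∧
        (2 / Real.pi) * ∫ w in Ioi (0 : ℝ), ((B * (N + (Complex.I * w) • J)⁻¹).trace).re =
          ((B * S).trace).re) ∧
      (J.PosDef →
        IntegrableOn (fun w : ℝ => (1 / w) * ((B * (N + (Complex.I * w) • J)⁻¹).trace).im)
          (Ioi 0) ∧
        (2 / Real.pi) * ∫ w in Ioi (0 : ℝ),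
          (1 / w) * ((B * (N + (Complex.I * w) • J)⁻¹).trace).im =
            -((B * N⁻¹).trace).re) ∧
      ((-J).PosDef →
        IntegrableOn (fun w : ℝ => (1 / w) * ((B * (N + (Complex.I * w) • J)⁻¹).trace).im)
          (Ioi 0) ∧
        (2 / Real.pi) * ∫ w in Ioi (0 : ℝ),
          (1 / w) * ((B * (N + (Complex.I * w) • J)⁻¹).trace).im =
            ((B * N⁻¹).trace).re)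

/-- POS: positivity and joint continuity -/
def POSStmt : Prop :=
  ∀ (ι κ : Type) [Fintype ι] [DecidableEq ι] [Fintype κ] [DecidableEq κ]
    (R₁ D₁ : Matrix ι ι ℂ) (R₂ D₂ : Matrix κ κ ℂ), SPair R₁ D₁ → SPair R₂ D₂ →
    (∀ c ∈ Icc (-1 : ℝ) 1, ∀ t ∈ Icc (0 : ℝ) 1, (Mt R₁ D₁ R₂ D₂ c t).PosDef) ∧
    (∀ c ∈ Icc (-1 : ℝ) 1, ∀ e : ℝ, 0 ≤ e → ∀ t ∈ Icc (0 : ℝ) 1, (Nt R₁ D₁ R₂ D₂ c e t).PosDef) ∧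
    (∀ c : ℝ, (Jc R₁ D₁ R₂ D₂ c).IsHermitian ∧ (Dc D₁ R₂ D₂ c).IsHermitian) ∧
    (∀ c ∈ Icc (-1 : ℝ) 1, ∀ e : ℝ, 0 ≤ e → ∀ t ∈ Icc (0 : ℝ) 1, ∀ w : ℝ,
      IsUnit (Zt R₁ D₁ R₂ D₂ c e t w)) ∧
    ContinuousOn (fun x : ℝ × ℝ × ℝ × ℝ => (Zt R₁ D₁ R₂ D₂ x.1 x.2.1 x.2.2.1 x.2.2.2)⁻¹)
      (Icc (-1) 1 ×ˢ Ici 0 ×ˢ Icc 0 1 ×ˢ univ)

/-- BND: the uniform bounds -/
def BNDStmt : Prop :=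
  ∀ (ι κ : Type) [Fintype ι] [DecidableEq ι] [Fintype κ] [DecidableEq κ]
    (R₁ D₁ : Matrix ι ι ℂ) (R₂ D₂ : Matrix κ κ ℂ), SPair R₁ D₁ → SPair R₂ D₂ →
    ∃ K : ℝ, 0 ≤ K ∧ ∀ c ∈ Icc (-1 : ℝ) 1, ∀ e : ℝ, 0 ≤ e →
      (∀ t ∈ Icc (0 : ℝ) 1,
        (IntegrableOn (uu R₁ D₁ R₂ D₂ c e t) (Ioi 0) ∧ ∫ w in Ioi (0 : ℝ), |uu R₁ D₁ R₂ D₂ c e t w| ≤ K) ∧
        (IntegrableOn (ui R₁ D₁ R₂ D₂ c e t) (Ioi 0) ∧ ∫ w in Ioi (0 : ℝ), |ui R₁ D₁ R₂ D₂ c e t w| ≤ K)) ∧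
      (IntegrableOn (vv R₁ D₁ R₂ D₂ c e) (Ioi 0) ∧ ∫ w in Ioi (0 : ℝ), |vv R₁ D₁ R₂ D₂ c e w| ≤ K / (1 + e))

/-- PW: the identity on the box for fixed `w` -/
def PWStmt : Prop :=
  ∀ (ι κ : Type) [Fintype ι] [DecidableEq ι] [Fintype κ] [DecidableEq κ]
    (R₁ D₁ : Matrix ι ι ℂ) (R₂ D₂ : Matrix κ κ ℂ), SPair R₁ D₁ → SPair R₂ D₂ →
    ∀ α w e₀ E : ℝ, 0 < w → 0 < e₀ → e₀ ≤ E →
      ∫ e in e₀..E, e ^ (-α) * ∫ t in (0 : ℝ)..1, (ui R₁ D₁ R₂ D₂ 1 e t w - ui R₁ D₁ R₂ D₂ (-1) e t w) =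
        ∫ c in (-1 : ℝ)..1, (-(E ^ (-α) * ∫ t in (0 : ℝ)..1, uu R₁ D₁ R₂ D₂ c E t w)
          + e₀ ^ (-α) * (∫ t in (0 : ℝ)..1, uu R₁ D₁ R₂ D₂ c e₀ t w)
          + ∫ e in e₀..E, (e ^ (-1 - α) * (-(1 + α) * (∫ t in (0 : ℝ)..1, uu R₁ D₁ R₂ D₂ c e t w)
              + 2 * uu R₁ D₁ R₂ D₂ c e 1 w - uu R₁ D₁ R₂ D₂ c e 0 w) + e ^ (-α) * vv R₁ D₁ R₂ D₂ c e w))

/-- INT: integrability of the `w`-integrated functions -/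
def INTStmt : Prop :=
  ∀ (ι κ : Type) [Fintype ι] [DecidableEq ι] [Fintype κ] [DecidableEq κ]
    (R₁ D₁ : Matrix ι ι ℂ) (R₂ D₂ : Matrix κ κ ℂ), SPair R₁ D₁ → SPair R₂ D₂ →
    ∀ α e₀ E : ℝ, 0 < e₀ → e₀ ≤ E →
      (∀ c ∈ Icc (-1 : ℝ) 1, ∀ e : ℝ, 0 ≤ e → IntervalIntegrable (pc R₁ D₁ R₂ D₂ c e) volume 0 1) ∧
      (∀ c ∈ Icc (-1 : ℝ) 1, ∀ t ∈ Icc (0 : ℝ) 1,
        IntervalIntegrable (fun e => e ^ (-1 - α) * pc R₁ D₁ R₂ D₂ c e t) volume e₀ E) ∧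
      (∀ c ∈ Icc (-1 : ℝ) 1, IntervalIntegrable (fun e => e ^ (-1 - α) * pa R₁ D₁ R₂ D₂ c e) volume e₀ E) ∧
      (∀ c ∈ Icc (-1 : ℝ) 1, IntervalIntegrable (fun e => e ^ (-α) * qc R₁ D₁ R₂ D₂ c e) volume e₀ E) ∧
      IntervalIntegrable (fun c => ∫ e in e₀..E, e ^ (-α) * qc R₁ D₁ R₂ D₂ c e) volume (-1) 1 ∧
      IntervalIntegrable (fun c => -(E ^ (-α) * pa R₁ D₁ R₂ D₂ c E) + e₀ ^ (-α) * pa R₁ D₁ R₂ D₂ c e₀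
        + ∫ e in e₀..E, e ^ (-1 - α) * (-(1 + α) * pa R₁ D₁ R₂ D₂ c e + 2 * pc R₁ D₁ R₂ D₂ c e 1 - pc R₁ D₁ R₂ D₂ c e 0))
        volume (-1) 1

/-- FUB: Proposition 1 -/
def FUBStmt : Prop :=
  ∀ (ι κ : Type) [Fintype ι] [DecidableEq ι] [Fintype κ] [DecidableEq κ]
    (R₁ D₁ : Matrix ι ι ℂ) (R₂ D₂ : Matrix κ κ ℂ), SPair R₁ D₁ → SPair R₂ D₂ →
    ∀ α e₀ E : ℝ, 0 < e₀ → e₀ ≤ E →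
      ∫ e in e₀..E, e ^ (-1 - α) * GG R₁ D₁ R₂ D₂ e =
        (∫ c in (-1 : ℝ)..1, (-(E ^ (-α) * pa R₁ D₁ R₂ D₂ c E) + e₀ ^ (-α) * pa R₁ D₁ R₂ D₂ c e₀
          + ∫ e in e₀..E, e ^ (-1 - α) * (-(1 + α) * pa R₁ D₁ R₂ D₂ c e + 2 * pc R₁ D₁ R₂ D₂ c e 1 - pc R₁ D₁ R₂ D₂ c e 0)))
        + ∫ c in (-1 : ℝ)..1, ∫ e in e₀..E, e ^ (-α) * qc R₁ D₁ R₂ D₂ c e

/-- SGN: the sign for fixed `c`, `e` -/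
def SGNStmt : Prop :=
  ∀ (ι κ : Type) [Fintype ι] [DecidableEq ι] [Fintype κ] [DecidableEq κ]
    (R₁ D₁ : Matrix ι ι ℂ) (R₂ D₂ : Matrix κ κ ℂ), SPair R₁ D₁ → SPair R₂ D₂ →
    ∀ c ∈ Ioo (-1 : ℝ) 1, IsUnit (Wc R₂ D₂ c).det → ∀ e : ℝ, 0 < e → ∀ α : ℝ, 0 < α → α ≤ 2 →
      pa R₁ D₁ R₂ D₂ c e ≤ pc R₁ D₁ R₂ D₂ c e 0 ∧
      (α - 1) * (pc R₁ D₁ R₂ D₂ c e 0 - pa R₁ D₁ R₂ D₂ c e) ≤ 2 * (pa R₁ D₁ R₂ D₂ c e - pc R₁ D₁ R₂ D₂ c e 1)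

/-- KAP: `p (c, e, 0)` does not depend on `e`; the exceptional set is finite -/
def KAPStmt : Prop :=
  ∀ (ι κ : Type) [Fintype ι] [DecidableEq ι] [Fintype κ] [DecidableEq κ]
    (R₁ D₁ : Matrix ι ι ℂ) (R₂ D₂ : Matrix κ κ ℂ), SPair R₁ D₁ → SPair R₂ D₂ →
    {c : ℝ | ¬ IsUnit (Wc R₂ D₂ c).det}.Finite ∧
    ∀ c ∈ Ioo (-1 : ℝ) 1, IsUnit (Wc R₂ D₂ c).det → ∃ k : ℝ, ∀ e : ℝ, 0 < e → pc R₁ D₁ R₂ D₂ c e 0 = k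

/-- SCA: scalar first factor -/
def SCAStmt : Prop :=
  ∀ (κ : Type) [Fintype κ] [DecidableEq κ] (A₂ D₂ : Matrix κ κ ℂ), SPair A₂ D₂ →
    ∀ a ∈ Ioo (-1 : ℝ) 1, ∀ c ∈ Ioo (-1 : ℝ) 1, IsUnit (Wc A₂ D₂ c).det →
      ∀ e : ℝ, 0 < e → ∀ t ∈ Icc (0 : ℝ) 1,
        pc (1 : Matrix Unit Unit ℂ) ((a : ℂ) • 1) A₂ D₂ c e t =
          pc (1 : Matrix Unit Unit ℂ) ((a : ℂ) • 1) A₂ D₂ c e 0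

/-- PR2: Proposition 2 -/
def PR2Stmt : Prop :=
  ∀ (ι κ : Type) [Fintype ι] [DecidableEq ι] [Fintype κ] [DecidableEq κ]
    (R₁ D₁ : Matrix ι ι ℂ) (R₂ D₂ : Matrix κ κ ℂ), SPair R₁ D₁ → SPair R₂ D₂ →
    ∃ K : ℝ, ∀ α e₀ E : ℝ, 0 < α → α ≤ 2 → 0 < e₀ → e₀ ≤ E →
      ∫ e in e₀..E, e ^ (-1 - α) * GG R₁ D₁ R₂ D₂ e ≤
        (∫ c in (-1 : ℝ)..1, ∫ e in e₀..E, e ^ (-α) * qc R₁ D₁ R₂ D₂ c e) + K * E ^ (-α)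

/-- PRE: Proposition 2 for a scalar first factor -/
def PREStmt : Prop :=
  ∀ (κ : Type) [Fintype κ] [DecidableEq κ] (A₂ D₂ : Matrix κ κ ℂ), SPair A₂ D₂ →
    ∀ a ∈ Ioo (-1 : ℝ) 1, ∀ α e₀ E : ℝ, 0 < e₀ → e₀ ≤ E →
      ∫ e in e₀..E, e ^ (-1 - α) * GG (1 : Matrix Unit Unit ℂ) ((a : ℂ) • 1) A₂ D₂ e =
        ∫ c in (-1 : ℝ)..1, ∫ e in e₀..E,
          e ^ (-α) * qc (1 : Matrix Unit Unit ℂ) ((a : ℂ) • 1) A₂ D₂ c e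

/-- QDI: `q` in the eigenbasis of `X` -/
def QDIStmt : Prop :=
  ∀ (ι κ : Type) [Fintype ι] [DecidableEq ι] [Fintype κ] [DecidableEq κ]
    (R₁ D₁ : Matrix ι ι ℂ) (R₂ D₂ : Matrix κ κ ℂ), SPair R₁ D₁ → SPair R₂ D₂ →
    ∀ c ∈ Icc (-1 : ℝ) 1, ∀ (U : Matrix ι ι ℂ) (x : ι → ℝ), U * Uᴴ = 1 → Uᴴ * U = 1 →
      Xc R₁ D₁ c = U * dg x * Uᴴ → ∀ e : ℝ, 0 ≤ e →
        qc R₁ D₁ R₂ D₂ c e = ∑ i, ((Uᴴ * D₁ * U) i i).re * sy R₂ D₂ (e * x i) c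

/-- SYB: the function `s(y,c)` -/
def SYBStmt : Prop :=
  ∀ (κ : Type) [Fintype κ] [DecidableEq κ] (A D : Matrix κ κ ℂ), SPair A D →
    ∃ K : ℝ, 0 ≤ K ∧
      (∀ c ∈ Icc (-1 : ℝ) 1, ∀ y : ℝ, 0 ≤ y → |sy A D y c| ≤ K / (1 + y)) ∧
      (∀ c ∈ Icc (-1 : ℝ) 1, ∀ y y' : ℝ, 0 ≤ y → 0 ≤ y' →
        |sy A D y c - sy A D y' c| ≤ K * |y - y'|) ∧
      AEStronglyMeasurable (fun x : ℝ × ℝ => sy A D x.2 x.1)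
        ((volume.restrict (Icc (-1) 1)).prod (volume.restrict (Ioi 0))) ∧
      AEStronglyMeasurable (fun c : ℝ => sy A D 0 c) (volume.restrict (Icc (-1) 1))

/-- MEL: the Mellin transform of `q` -/
def MELStmt : Prop :=
  ∀ α : ℝ, 0 < α → α < 2 → α ≠ 1 → ∀ (κ : Type) [Fintype κ] [DecidableEq κ]
    (A₂ D₂ : Matrix κ κ ℂ), SPair A₂ D₂ →
    ∃ S : ℝ → ℝ, IntervalIntegrable S volume (-1) 1 ∧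
      (∃ K : ℝ, ∀ c ∈ Icc (-1 : ℝ) 1, |S c| ≤ K) ∧
      ∀ (ι : Type) [Fintype ι] [DecidableEq ι] (A₁ D₁ : Matrix ι ι ℂ), SPair A₁ D₁ →
        Summable (fun m : ℕ => In α A₁ D₁ (2 * (m + 1))) ∧
        (∃ K : ℝ, ∀ c ∈ Icc (-1 : ℝ) 1, ∀ e : ℝ, 0 < e →
          |qs A₁ D₁ A₂ D₂ c e| ≤ K * min e (1 / e)) ∧
        ∀ c ∈ Icc (-1 : ℝ) 1,
          IntegrableOn (fun e : ℝ => e ^ (-α) * qs A₁ D₁ A₂ D₂ c e) (Ioi 0) ∧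
          ∫ e in Ioi (0 : ℝ), e ^ (-α) * qs A₁ D₁ A₂ D₂ c e = S c * hh α A₁ D₁ c

/-- LOG: the log det integrals -/
def LOGStmt : Prop :=
  ∀ α : ℝ, 0 < α → α < 2 → α ≠ 1 → ∀ (ν : Type) [Fintype ν] [DecidableEq ν]
    (A D : Matrix ν ν ℂ), IsPair A D →
      IntegrableOn (fun e : ℝ => e ^ (-1 - α) * LD A D e) (Ioi 0) ∧
      HasSum (fun m : ℕ => In α A D (2 * (m + 1)) / (2 * ((m : ℝ) + 1)))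
        ((1 / 2) * ∫ e in Ioi (0 : ℝ), e ^ (-1 - α) * LD A D e)

/-- TEN: `In` of `(A₁ ⊗ A₂, D₁ ⊗ A₂)`, and the sum of the two `GG` -/
def TENStmt : Prop :=
  (∀ α : ℝ, 0 < α → ∀ (κ : Type) [Fintype κ] [DecidableEq κ] (A₂ : Matrix κ κ ℂ), A₂.PosDef →
    ∃ T : ℝ, ∀ (ι : Type) [Fintype ι] [DecidableEq ι] (A₁ D₁ : Matrix ι ι ℂ), IsPair A₁ D₁ →
      ∀ m : ℕ, In α (A₁ ⊗ₖ A₂) (D₁ ⊗ₖ A₂) (2 * (m + 1)) = T * In α A₁ D₁ (2 * (m + 1))) ∧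
  (∀ (ι κ : Type) [Fintype ι] [DecidableEq ι] [Fintype κ] [DecidableEq κ]
    (R₁ D₁ : Matrix ι ι ℂ) (R₂ D₂ : Matrix κ κ ℂ) (e : ℝ),
    GG R₁ D₁ R₂ D₂ e + GG R₁ (-D₁) R₂ D₂ e =
      2 * LD (R₁ ⊗ₖ R₂) (D₁ ⊗ₖ R₂) e - 2 * LD (R₁ ⊗ₖ R₂) (D₁ ⊗ₖ D₂) e)

/-- XLM: the moment form with unknown coefficients -/
def XLMStmt : Prop :=
  ∀ α : ℝ, 0 < α → α < 2 → α ≠ 1 → ∀ (κ : Type) [Fintype κ] [DecidableEq κ]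
    (A₂ D₂ : Matrix κ κ ℂ), SPair A₂ D₂ → ∃ v : ℕ → ℝ,
      (∀ (ι : Type) [Fintype ι] [DecidableEq ι] (A₁ D₁ : Matrix ι ι ℂ), SPair A₁ D₁ →
        Summable (fun m : ℕ => In α A₁ D₁ (2 * (m + 1)) * v m) ∧
        ∑' m : ℕ, In α A₁ D₁ (2 * (m + 1)) * v m ≤
          ∑' m : ℕ, In α (A₁ ⊗ₖ A₂) (D₁ ⊗ₖ D₂) (2 * (m + 1)) / (2 * ((m : ℝ) + 1))) ∧
      (∀ a ∈ Ioo (0 : ℝ) 1,
        HasSum (fun m : ℕ => a ^ (2 * (m + 1)) * (bet α (2 * (m + 1)) * v m))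
          (∑' m : ℕ, a ^ (2 * (m + 1)) * (In α A₂ D₂ (2 * (m + 1)) / (2 * ((m : ℝ) + 1)))))

/-- COE: comparison of coefficients -/
def COEStmt : Prop :=
  ∀ (u v : ℕ → ℝ) (s : ℝ → ℝ),
    (∀ a ∈ Ioo (0 : ℝ) 1, HasSum (fun m : ℕ => a ^ (2 * (m + 1)) * u m) (s a)) →
    (∀ a ∈ Ioo (0 : ℝ) 1, HasSum (fun m : ℕ => a ^ (2 * (m + 1)) * v m) (s a)) → u = v

/-- XLN: the inequality (XL) -/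
def XLNStmt : Prop :=
  ∀ α : ℝ, 0 < α → α < 2 → α ≠ 1 → ∀ (ι κ : Type) [Fintype ι] [DecidableEq ι] [Fintype κ]
    [DecidableEq κ] (A₁ D₁ : Matrix ι ι ℂ) (A₂ D₂ : Matrix κ κ ℂ), SPair A₁ D₁ →
    SPair A₂ D₂ → ∀ T : ℝ,
      HasSum (fun m : ℕ => In α (A₁ ⊗ₖ A₂) (D₁ ⊗ₖ D₂) (2 * (m + 1)) / (2 * ((m : ℝ) + 1))) T →
      ∃ S : ℝ, S ≤ T ∧
        HasSum (fun m : ℕ => bet α (2 * (m + 1)) / (2 * ((m : ℝ) + 1)) *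
          (In α A₁ D₁ (2 * (m + 1)) / bet α (2 * (m + 1)) *
            (In α A₂ D₂ (2 * (m + 1)) / bet α (2 * (m + 1))))) S

/-- Q1: all pairs, `0 < α ≤ 2` -/
def Q1Stmt : Prop :=
  (∀ α : ℝ, 0 < α → α ≤ 2 → α ≠ 1 → ∀ (ι κ : Type) [Fintype ι] [DecidableEq ι] [Fintype κ]
    [DecidableEq κ] (A₁ D₁ : Matrix ι ι ℂ) (A₂ D₂ : Matrix κ κ ℂ), IsPsdPair A₁ D₁ →
    IsPsdPair A₂ D₂ →
      G α A₁ D₁ * G α A₂ D₂ ≤ (2 ^ (α - 1) - 1) * G α (A₁ ⊗ₖ A₂) (D₁ ⊗ₖ D₂)) ∧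
  (∀ (ι κ : Type) [Fintype ι] [DecidableEq ι] [Fintype κ]
    [DecidableEq κ] (A₁ D₁ : Matrix ι ι ℂ) (A₂ D₂ : Matrix κ κ ℂ), IsPsdPair A₁ D₁ →
    IsPsdPair A₂ D₂ →
      G1 A₁ D₁ * G1 A₂ D₂ ≤ Real.log 2 * G1 (A₁ ⊗ₖ A₂) (D₁ ⊗ₖ D₂))

end Pool.Agent.A1W
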