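import Pool.Agent.Lib_helper96.A1.Pw

/-!
# MP_859019_mp, project A1: common definitions, part 2 (the letters `Xc`, `Wc`, `Jc`, `Dc`, `Mt`,
`Nt`, `Zt`, `SPair`, `uu`, `ui`, `vv` are those of `Lib_helper96/A1`, namespace `Pool.Agent.A1`)
-/

set_option autoImplicit false

open scoped BigOperators ComplexOrder Kronecker MatrixOrder
open MeasureTheory Set Matrix

namespace Pool.Agent.A1W

open Pool.Agent.RC Pool.Agent.A1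

variable {ι κ ν : Type} [Fintype ι] [DecidableEq ι] [Fintype κ] [DecidableEq κ]
  [Fintype ν] [DecidableEq ν]

/-- the logarithm of the determinant -/
noncomputable def ld (M : Matrix ν ν ℂ) : ℝ := Real.log (M.det).re

section

variable (R₁ D₁ : Matrix ι ι ℂ) (R₂ D₂ : Matrix κ κ ℂ)

/-- `(2/π) ∫ Re Tr Dc Zt⁻¹ dw` -/
noncomputable def pc (c e t : ℝ) : ℝ :=
  (2 / Real.pi) * ∫ w in Ioi (0 : ℝ), uu R₁ D₁ R₂ D₂ c e t w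

/-- `∫ pc dt` -/
noncomputable def pa (c e : ℝ) : ℝ := ∫ t in (0 : ℝ)..1, pc R₁ D₁ R₂ D₂ c e t

/-- `(2/π) ∫ -(1/w) Im Tr (D₁ ⊗ R₂) Z₀⁻¹ dw` -/
noncomputable def qc (c e : ℝ) : ℝ :=
  (2 / Real.pi) * ∫ w in Ioi (0 : ℝ), vv R₁ D₁ R₂ D₂ c e w

/-- the sum over `± D₁` -/
noncomputable def qs (c e : ℝ) : ℝ := qc R₁ D₁ R₂ D₂ c e + qc R₁ (-D₁) R₂ D₂ c e

/-- `2 log det (1 + e M) - log det (1 + e (R₁ + D₁) ⊗ R₂) - log det (1 + e (R₁ - D₁) ⊗ R₂)` -/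
noncomputable def GG (e : ℝ) : ℝ :=
  2 * ld (1 + (e : ℂ) • (R₁ ⊗ₖ R₂ + D₁ ⊗ₖ D₂)) - ld (1 + (e : ℂ) • ((R₁ + D₁) ⊗ₖ R₂))
    - ld (1 + (e : ℂ) • ((R₁ - D₁) ⊗ₖ R₂))

end

/-- `2 log det (1 + e A) - log det (1 + e (A + D)) - log det (1 + e (A - D))` -/
noncomputable def LD (A D : Matrix ν ν ℂ) (e : ℝ) : ℝ :=
  2 * ld (1 + (e : ℂ) • A) - ld (1 + (e : ℂ) • (A + D)) - ld (1 + (e : ℂ) • (A - D))

/-- `s(y,c) = (2/π) ∫ -(1/w) Im Tr R (1 + y R + i w (D - c R))⁻¹ dw` -/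
noncomputable def sy (R D : Matrix κ κ ℂ) (y c : ℝ) : ℝ :=
  (2 / Real.pi) * ∫ w in Ioi (0 : ℝ), -(1 / w) *
    ((R * (1 + (y : ℂ) • R + (Complex.I * w) • Wc R D c)⁻¹).trace).im

/-- the series `∑ c^(2m+1) In(2m+2)` -/
noncomputable def hh (α : ℝ) (R D : Matrix ι ι ℂ) (c : ℝ) : ℝ :=
  ∑' m : ℕ, c ^ (2 * m + 1) * In α R D (2 * (m + 1))

end Pool.Agent.A1W
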