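import Pool.Agent.Lib_helper52.A1.Qdi
import Pool.Agent.Lib_helper32.A1.WiStmt
import Pool.Agent.Lib_helper32.A1.WIb
import Pool.Agent.Lib_helper28.A1.SgnW

/-!
# A1, blocks KAP and SCA
-/

set_option autoImplicit false
set_option linter.unusedSectionVars false

open scoped BigOperators ComplexOrder Kronecker MatrixOrder Topology
open MeasureTheory Set Matrix Filter

namespace Pool.Agent.A1W

open Pool.Agent.RC Pool.Agent.A1
open Pool.Agent.Lib_helper59.Lieb (rtr)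

variable {ι κ ν : Type} [Fintype ι] [DecidableEq ι] [Fintype κ] [DecidableEq κ]
  [Fintype ν] [DecidableEq ν]

theorem uu_zero_eq {R₁ D₁ : Matrix ι ι ℂ} {R₂ D₂ : Matrix κ κ ℂ} (hR₂ : R₂.PosSemidef)
    (hD₂ : D₂.IsHermitian) (hD₁ : D₁.IsHermitian) {c e : ℝ}
    (he : 0 ≤ e) {U : Matrix ι ι ℂ} {x : ι → ℝ} (hU : Uᴴ * U = 1) (hU' : U * Uᴴ = 1)
    (hx : ∀ i, 0 < x i)
    (hX : Uᴴ * Xc R₁ D₁ c * U = Matrix.diagonal (fun i => (x i : ℂ))) (w : ℝ) :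
    uu R₁ D₁ R₂ D₂ c e 0 w =
      ∑ i, ((Uᴴ * D₁ * U) i i).re *
        ((Wc R₂ D₂ c * ((1 + ((e * x i : ℝ) : ℂ) • R₂) +
          (Complex.I * ((w * x i : ℝ) : ℂ)) • Wc R₂ D₂ c)⁻¹).trace).re := by
  unfold uu tz Dc
  rw [Zt_eq_Zm, Z0_inv hR₂ hD₂ he hU hU' hx hX w, Finset.mul_sum, Matrix.trace_sum, Complex.re_sum]
  refine Finset.sum_congr rfl (fun i _ => ?_)
  rw [← Matrix.mul_kronecker_mul, Matrix.trace_kronecker, trace_mul_Pj]
  have him : ((Uᴴ * D₁ * U) i i).im = 0 := Frame.dgn_im hD₁ U i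
  rw [Complex.mul_re, him]
  unfold Zm
  rw [mul_comm Complex.I]
  ring_nf

theorem kap_aux {R₁ D₁ : Matrix ι ι ℂ} {R₂ D₂ : Matrix κ κ ℂ} (h₁ : SPair R₁ D₁)
    (h₂ : SPair R₂ D₂) {c : ℝ} (hc : c ∈ Icc (-1 : ℝ) 1) (hW : IsUnit (Wc R₂ D₂ c).det) :
    ∃ k : ℝ, ∀ e : ℝ, 0 < e → pc R₁ D₁ R₂ D₂ c e 0 = k := by
  obtain ⟨U, x, hU', hU, hX⟩ := A1.exists_diag (Xc_herm h₁ c)
  have hx : ∀ i, 0 < x i := by
    intro i
    have hUu : IsUnit U := IsUnit.of_mul_eq_one _ hU'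
    have h3 : (Uᴴ * Xc R₁ D₁ c * U).PosDef :=
      (Xc_posDef h₁ hc).conjTranspose_mul_mul_same (Matrix.mulVec_injective_of_isUnit hUu)
    rw [hX, Matrix.posDef_diagonal_iff] at h3
    have h4 := h3 i
    exact_mod_cast h4
  have hR := h₂.posDef.posSemidef
  have hWh := Wc_herm h₂ c
  -- the constants
  obtain ⟨S₀, hS₀⟩ := exists_isS (Matrix.PosDef.one (n := κ) (R := ℂ)) hWh hW.ne_zero
  refine ⟨∑ i, ((Uᴴ * D₁ * U) i i).re * ((x i)⁻¹ * rtr (Wc R₂ D₂ c * S₀)), ?_⟩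
  intro e he
  have key : ∀ i, IntegrableOn (fun w : ℝ => ((Wc R₂ D₂ c * ((1 + ((e * x i : ℝ) : ℂ) • R₂) +
          (Complex.I * (w : ℂ)) • Wc R₂ D₂ c)⁻¹).trace).re) (Ioi 0) ∧
      (2 / Real.pi) * ∫ w in Ioi (0 : ℝ), ((Wc R₂ D₂ c * ((1 + ((e * x i : ℝ) : ℂ) • R₂) +
          (Complex.I * (w : ℂ)) • Wc R₂ D₂ c)⁻¹).trace).re = rtr (Wc R₂ D₂ c * S₀) := by
    intro i
    have hN : (1 + ((e * x i : ℝ) : ℂ) • R₂).PosDef := posDef_one_add hR (mul_nonneg he.le (hx i).le)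
    obtain ⟨S, hS⟩ := exists_isS hN hWh hW.ne_zero
    obtain ⟨h3, h4⟩ := (wi_stmt κ _ _ (Wc R₂ D₂ c) hN hWh hWh).2.1 S hS
    refine ⟨h3, ?_⟩
    rw [h4]
    exact rtr_J_eq hS hS₀
  unfold pc
  simp only [uu_zero_eq hR h₂.herm h₁.herm he.le hU hU' hx hX]
  have hi : ∀ i, IntegrableOn (fun w : ℝ => ((Wc R₂ D₂ c * ((1 + ((e * x i : ℝ) : ℂ) • R₂) +
          (Complex.I * ((w * x i : ℝ) : ℂ)) • Wc R₂ D₂ c)⁻¹).trace).re) (Ioi 0) := by
    intro i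
    have h3 : IntegrableOn (fun w : ℝ => ((Wc R₂ D₂ c * ((1 + ((e * x i : ℝ) : ℂ) • R₂) +
          (Complex.I * (w : ℂ)) • Wc R₂ D₂ c)⁻¹).trace).re) (Ioi (0 * x i)) := by
      rw [zero_mul]; exact (key i).1
    exact (integrableOn_Ioi_comp_mul_right_iff (fun w : ℝ => ((Wc R₂ D₂ c *
      ((1 + ((e * x i : ℝ) : ℂ) • R₂) + (Complex.I * (w : ℂ)) • Wc R₂ D₂ c)⁻¹).trace).re)
      0 (hx i)).2 h3
  rw [integral_finsetSum _ fun i _ => (hi i).const_mul _, Finset.mul_sum]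
  refine Finset.sum_congr rfl fun i _ => ?_
  rw [integral_const_mul, integral_comp_mul_right_Ioi (fun w : ℝ => ((Wc R₂ D₂ c *
      ((1 + ((e * x i : ℝ) : ℂ) • R₂) + (Complex.I * (w : ℂ)) • Wc R₂ D₂ c)⁻¹).trace).re)
      0 (hx i), zero_mul, smul_eq_mul, ← (key i).2]
  ring

theorem finite_sing {R D : Matrix κ κ ℂ} (h : SPair R D) :
    {c : ℝ | ¬ IsUnit (Wc R D c).det}.Finite := by
  obtain ⟨V, W', l, hF⟩ := A1.exists_frame h.posDef h.herm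
  apply (Set.finite_range l).subset
  intro c hc
  by_contra hne
  apply hc
  have e1 : Vᴴ * Wc R D c * V = Matrix.diagonal (fun i => ((l i - c : ℝ) : ℂ)) := by
    unfold Wc
    rw [Matrix.mul_sub, Matrix.sub_mul, hF.hJ, Matrix.mul_smul, Matrix.smul_mul, hF.hN]
    ext i j
    by_cases hij : i = j
    · subst hij; simp
    · simp [hij]
  have e2 : (Vᴴ * Wc R D c * V).det ≠ 0 := by
    rw [e1, Matrix.det_diagonal]
    apply Finset.prod_ne_zero_iff.2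
    intro i _ h0
    apply hne
    refine ⟨i, ?_⟩
    have : l i - c = 0 := by exact_mod_cast h0
    linarith
  rw [Matrix.det_mul, Matrix.det_mul] at e2
  exact isUnit_iff_ne_zero.2 (right_ne_zero_of_mul (left_ne_zero_of_mul e2))

theorem kap_stmt : KAPStmt := by
  intro ι κ _ _ _ _ R₁ D₁ R₂ D₂ h₁ h₂
  exact ⟨finite_sing h₂, fun c hc hW => kap_aux h₁ h₂ (Ioo_subset_Icc_self hc) hW⟩

theorem sca_stmt : SCAStmt := by
  intro κ _ _ A₂ D₂ h₂ a ha c hc hW e he t ht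
  have hcc := Ioo_subset_Icc_self hc
  have h₁ : SPair (1 : Matrix Unit Unit ℂ) ((a : ℂ) • 1) := by
    have e1 : (1 : Matrix Unit Unit ℂ) - (a : ℂ) • 1 = ((1 - a : ℝ) : ℂ) • 1 := by
      push_cast; rw [sub_smul, one_smul]
    have e2 : (1 : Matrix Unit Unit ℂ) + (a : ℂ) • 1 = ((1 + a : ℝ) : ℂ) • 1 := by
      push_cast; rw [add_smul, one_smul]
    constructor
    · rw [e1, coe_smul_mat]
      exact Matrix.PosDef.one.smul (by linarith [ha.2])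
    · rw [e2, coe_smul_mat]
      exact Matrix.PosDef.one.smul (by linarith [ha.1])
  have hJ := Jc_herm h₁ h₂ c
  have hdet := Jc_det_unit (R₂ := A₂) (D₂ := D₂) h₁ hcc hW
  obtain ⟨S, hS⟩ := exists_isS (Nt_posDef h₁ h₂ hcc he.le (t := 0) ⟨le_rfl, zero_le_one⟩) hJ
    hdet.ne_zero
  have hx : (1 + c * a : ℝ) ≠ 0 := by
    have : |c * a| < 1 := by
      rw [abs_mul]
      have h3 := abs_lt.2 hc
      have h4 := abs_lt.2 ha
      nlinarith [abs_nonneg c, abs_nonneg a]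
    have := (abs_lt.1 this).1
    intro h0; linarith
  have hN : Nt (1 : Matrix Unit Unit ℂ) ((a : ℂ) • 1) A₂ D₂ c e t =
      Nt (1 : Matrix Unit Unit ℂ) ((a : ℂ) • 1) A₂ D₂ c e 0 +
        (t * e * (a / (1 + c * a))) • Jc (1 : Matrix Unit Unit ℂ) ((a : ℂ) • 1) A₂ D₂ c := by
    have e3 : (1 : Matrix Unit Unit ℂ) + (c : ℂ) • ((a : ℂ) • (1 : Matrix Unit Unit ℂ)) =
        ((1 + c * a : ℝ) : ℂ) • 1 := by
      push_cast; rw [add_smul, one_smul, smul_smul]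
    have e4 : Dc ((a : ℂ) • (1 : Matrix Unit Unit ℂ)) A₂ D₂ c =
        (a / (1 + c * a)) • Jc (1 : Matrix Unit Unit ℂ) ((a : ℂ) • 1) A₂ D₂ c := by
      unfold Dc Jc Xc
      rw [← coe_smul_mat, e3, Matrix.smul_kronecker, Matrix.smul_kronecker, smul_smul,
        ← Complex.ofReal_mul, div_mul_cancel₀ _ hx]
    rw [← Nt_path c e t, e4, smul_smul]
  have hS' : IsS (Jc (1 : Matrix Unit Unit ℂ) ((a : ℂ) • 1) A₂ D₂ c)
      (Nt (1 : Matrix Unit Unit ℂ) ((a : ℂ) • 1) A₂ D₂ c e t) S := by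
    rw [hN]; exact hS.add_J _
  unfold pc
  rw [A1.pc_eq h₁ h₂ hcc he.le ht hS', A1.pc_eq h₁ h₂ hcc he.le ⟨le_rfl, zero_le_one⟩ hS]

end Pool.Agent.A1W
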