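import Pool.Agent.Lib_helper52.A1.Qdi
import Pool.Agent.Lib_helper66.A1.BndS
import Pool.Agent.Lib_helper12.A1.MelB
import Pool.Agent.Lib_helper16.A1.MelAF

/-!
# A1, block MEL, assembly
-/

set_option autoImplicit false
set_option linter.unusedSectionVars false

open scoped BigOperators ComplexOrder Kronecker MatrixOrder Topology
open MeasureTheory Set Matrix Filter

namespace Pool.Agent.A1W

open Pool.Agent.RC Pool.Agent.A1

variable {ι κ : Type} [Fintype ι] [DecidableEq ι] [Fintype κ] [DecidableEq κ]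

theorem spair_neg' {R D : Matrix ι ι ℂ} (h : SPair R D) : SPair R (-D) :=
  ⟨by rw [sub_neg_eq_add]; exact h.add, by rw [← sub_eq_add_neg]; exact h.sub⟩

theorem exists_UX {R D : Matrix ι ι ℂ} (h : SPair R D) (c : ℝ) :
    ∃ (U : Matrix ι ι ℂ) (x : ι → ℝ), U * Uᴴ = 1 ∧ Uᴴ * U = 1 ∧ Xc R D c = U * dg x * Uᴴ := by
  obtain ⟨U, x, h1, h2, h3⟩ := A1.exists_diag (Xc_herm h c)
  refine ⟨U, x, h1, h2, ?_⟩
  have h4 : dg x = Uᴴ * Xc R D c * U := h3.symm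
  rw [h4]
  calc Xc R D c = (U * Uᴴ) * Xc R D c * (U * Uᴴ) := by rw [h1]; simp
    _ = _ := by noncomm_ring

/-- `∑ |d_i| x_i ≤ 2 (Tr R)²` -/
theorem sum_dx {R D : Matrix ι ι ℂ} (h : SPair R D) {c : ℝ} (hc : c ∈ Icc (-1 : ℝ) 1)
    {U : Matrix ι ι ℂ} {x : ι → ℝ} (hU : U * Uᴴ = 1) (hU' : Uᴴ * U = 1)
    (hX : Xc R D c = U * dg x * Uᴴ) :
    ∑ i, |((Uᴴ * D * U) i i).re| * x i ≤ 2 * (R.trace).re ^ 2 := by
  have hx : ∀ i, 0 < x i := MELA.eig_pos hU hU' hX (Xc_posDef h hc)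
  have hd : ∀ i, |((Uᴴ * D * U) i i).re| ≤ ((Uᴴ * R * U) i i).re := by
    intro i
    have e1 := (h.sub.posSemidef.conjTranspose_mul_mul_same U).diag_nonneg (i := i)
    have e2 := (h.add.posSemidef.conjTranspose_mul_mul_same U).diag_nonneg (i := i)
    rw [Matrix.mul_sub, Matrix.sub_mul] at e1
    rw [Matrix.mul_add, Matrix.add_mul] at e2
    have e1' := (Complex.le_def.1 e1).1
    have e2' := (Complex.le_def.1 e2).1
    simp only [Matrix.sub_apply, Matrix.add_apply, Complex.sub_re, Complex.add_re,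
      Complex.zero_re] at e1' e2'
    rw [abs_le]
    constructor <;> linarith
  have hR : ∀ i, 0 ≤ ((Uᴴ * R * U) i i).re := fun i => (abs_nonneg _).trans (hd i)
  have tR : ∑ i, ((Uᴴ * R * U) i i).re = (R.trace).re := MELA.trace_diag hU
  have tD : |(D.trace).re| ≤ (R.trace).re := by
    rw [← tR, ← MELA.trace_diag (D := D) hU]
    exact (Finset.abs_sum_le_sum_abs _ _).trans (Finset.sum_le_sum fun i _ => hd i)
  have tx : ∑ i, x i ≤ 2 * (R.trace).re := by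
    have e1 : ∑ i, ((Uᴴ * Xc R D c * U) i i).re = (Xc R D c).trace.re := MELA.trace_diag hU
    have e2 : Uᴴ * Xc R D c * U = dg x := by
      rw [hX]
      calc Uᴴ * (U * dg x * Uᴴ) * U = (Uᴴ * U) * dg x * (Uᴴ * U) := by noncomm_ring
        _ = dg x := by rw [hU', one_mul, mul_one]
    rw [e2] at e1
    have e3 : ∑ i, ((dg x : Matrix ι ι ℂ) i i).re = ∑ i, x i := by
      refine Finset.sum_congr rfl fun i _ => ?_
      simp [dg]
    rw [← e3, e1]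
    unfold Xc
    rw [Matrix.trace_add, Matrix.trace_smul, Complex.add_re, smul_eq_mul, Complex.re_ofReal_mul]
    have h3 : c * (D.trace).re ≤ |c| * |(D.trace).re| := by
      rw [← abs_mul]; exact le_abs_self _
    have h4 : |c| ≤ 1 := abs_le.2 ⟨hc.1, hc.2⟩
    nlinarith [abs_nonneg (D.trace).re, abs_nonneg c]
  have hT : 0 ≤ (R.trace).re := (abs_nonneg _).trans tD
  calc ∑ i, |((Uᴴ * D * U) i i).re| * x i
      ≤ ∑ i, ((Uᴴ * R * U) i i).re * (2 * (R.trace).re) := by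
        refine Finset.sum_le_sum fun i _ => mul_le_mul (hd i) ?_ (hx i).le (hR i)
        exact (Finset.single_le_sum (fun j _ => (hx j).le) (Finset.mem_univ i)).trans tx
    _ = 2 * (R.trace).re ^ 2 := by
        rw [← Finset.sum_mul, tR]; ring

theorem mel_stmt : MELStmt := by
  intro α h0 h2 h1 κ _ _ A₂ D₂ h₂
  obtain ⟨S, hSi, ⟨KS, hKS⟩, hS⟩ := mel_b syb_stmt h0 h2 h1 κ A₂ D₂ h₂
  obtain ⟨k, hk⟩ := MELA.mel_a h0 h2 h1
  obtain ⟨K₀, hK₀, -, hlip, -, -⟩ := syb_stmt κ A₂ D₂ h₂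
  refine ⟨fun c => k * S c, hSi.const_mul k, ⟨|k| * KS, fun c hc => ?_⟩, ?_⟩
  · rw [abs_mul]
    exact mul_le_mul_of_nonneg_left (hKS c hc) (abs_nonneg k)
  intro ι _ _ A₁ D₁ h₁
  obtain ⟨hsum, hcc⟩ := hk ι A₁ D₁ h₁
  have h₁' := spair_neg' h₁
  -- the formula for `qs`
  have form : ∀ c ∈ Icc (-1 : ℝ) 1, ∀ (U V : Matrix ι ι ℂ) (x y : ι → ℝ),
      U * Uᴴ = 1 → Uᴴ * U = 1 → V * Vᴴ = 1 → Vᴴ * V = 1 →
      Xc A₁ D₁ c = U * dg x * Uᴴ → Xc A₁ (-D₁) c = V * dg y * Vᴴ → ∀ e : ℝ, 0 ≤ e → ∀ s : ℝ,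
      qs A₁ D₁ A₂ D₂ c e =
        ∑ i, ((Uᴴ * D₁ * U) i i).re * (sy A₂ D₂ (e * x i) c - s) -
          ∑ i, ((Vᴴ * D₁ * V) i i).re * (sy A₂ D₂ (e * y i) c - s) := by
    intro c hc U V x y hU hU' hV hV' hX hY e he s
    unfold qs
    rw [qdi_stmt ι κ A₁ D₁ A₂ D₂ h₁ h₂ c hc U x hU hU' hX e he,
      qdi_stmt ι κ A₁ (-D₁) A₂ D₂ h₁' h₂ c hc V y hV hV' hY e he]
    simp only [mul_sub, Finset.sum_sub_distrib, ← Finset.sum_mul]
    rw [MELA.trace_diag hU, MELA.trace_diag hV]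
    have e1 : ∑ i, ((Vᴴ * -D₁ * V) i i).re * sy A₂ D₂ (e * y i) c =
        -∑ i, ((Vᴴ * D₁ * V) i i).re * sy A₂ D₂ (e * y i) c := by
      rw [← Finset.sum_neg_distrib]
      refine Finset.sum_congr rfl fun i _ => ?_
      rw [Matrix.mul_neg, Matrix.neg_mul, Matrix.neg_apply, Complex.neg_re]
      ring
    rw [e1]
    ring
  refine ⟨hsum, ?_, ?_⟩
  · -- the bound
    obtain ⟨K₁, hK₁, hb₁⟩ := bnd_stmt ι κ A₁ D₁ A₂ D₂ h₁ h₂
    obtain ⟨K₂, hK₂, hb₂⟩ := bnd_stmt ι κ A₁ (-D₁) A₂ D₂ h₁' h₂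
    set T := (A₁.trace).re with hT
    have hpi : (0 : ℝ) ≤ 2 / Real.pi := by positivity
    have bq : ∀ (D : Matrix ι ι ℂ) (K : ℝ), 0 ≤ K →
        (∀ c ∈ Icc (-1 : ℝ) 1, ∀ e : ℝ, 0 ≤ e →
          ∫ w in Ioi (0 : ℝ), |vv A₁ D A₂ D₂ c e w| ≤ K / (1 + e)) →
        ∀ c ∈ Icc (-1 : ℝ) 1, ∀ e : ℝ, 0 < e →
          |qc A₁ D A₂ D₂ c e| ≤ (2 / Real.pi) * K * (1 / e) := by
      intro D K hK hb c hc e he
      unfold qc
      rw [abs_mul, abs_of_nonneg hpi, mul_assoc]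
      refine mul_le_mul_of_nonneg_left ?_ hpi
      refine (abs_integral_le_integral_abs).trans ((hb c hc e he.le).trans ?_)
      rw [mul_one_div]
      exact div_le_div_of_nonneg_left hK he (by linarith)
    refine ⟨K₀ * (2 * T ^ 2) + K₀ * (2 * T ^ 2) + ((2 / Real.pi) * K₁ + (2 / Real.pi) * K₂),
      fun c hc e he => ?_⟩
    have pT : 0 ≤ K₀ * (2 * T ^ 2) := by positivity
    have pK₁ : 0 ≤ (2 / Real.pi) * K₁ := mul_nonneg hpi hK₁
    have pK₂ : 0 ≤ (2 / Real.pi) * K₂ := mul_nonneg hpi hK₂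
    have b1 : |qs A₁ D₁ A₂ D₂ c e| ≤ (K₀ * (2 * T ^ 2) + K₀ * (2 * T ^ 2)) * e := by
      obtain ⟨U, x, hU, hU', hX⟩ := exists_UX h₁ c
      obtain ⟨V, y, hV, hV', hY⟩ := exists_UX h₁' c
      have hx : ∀ i, 0 < x i := MELA.eig_pos hU hU' hX (Xc_posDef h₁ hc)
      have hy : ∀ i, 0 < y i := MELA.eig_pos hV hV' hY (Xc_posDef h₁' hc)
      rw [form c hc U V x y hU hU' hV hV' hX hY e he.le (sy A₂ D₂ 0 c)]
      have g1 : ∀ (Q : Matrix ι ι ℂ) (z : ι → ℝ), (∀ i, 0 < z i) →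
          ∑ i, |((Qᴴ * D₁ * Q) i i).re| * z i ≤ 2 * T ^ 2 →
          |∑ i, ((Qᴴ * D₁ * Q) i i).re * (sy A₂ D₂ (e * z i) c - sy A₂ D₂ 0 c)| ≤
            K₀ * (2 * T ^ 2) * e := by
        intro Q z hz hQ
        refine (Finset.abs_sum_le_sum_abs _ _).trans ?_
        calc ∑ i, |((Qᴴ * D₁ * Q) i i).re * (sy A₂ D₂ (e * z i) c - sy A₂ D₂ 0 c)|
            ≤ ∑ i, K₀ * e * (|((Qᴴ * D₁ * Q) i i).re| * z i) := by
              refine Finset.sum_le_sum fun i _ => ?_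
              rw [abs_mul]
              have h5 := hlip c hc (e * z i) 0 (mul_nonneg he.le (hz i).le) le_rfl
              rw [sub_zero, abs_of_nonneg (mul_nonneg he.le (hz i).le)] at h5
              calc _ ≤ |((Qᴴ * D₁ * Q) i i).re| * (K₀ * (e * z i)) :=
                    mul_le_mul_of_nonneg_left h5 (abs_nonneg _)
                _ = _ := by ring
          _ = K₀ * e * ∑ i, |((Qᴴ * D₁ * Q) i i).re| * z i := by rw [Finset.mul_sum]
          _ ≤ K₀ * e * (2 * T ^ 2) := mul_le_mul_of_nonneg_left hQ (mul_nonneg hK₀ he.le)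
          _ = _ := by ring
      have s1 := g1 U x hx (sum_dx h₁ hc hU hU' hX)
      have s2' := sum_dx h₁' hc hV hV' hY
      have s2 := g1 V y hy (by
        refine le_trans (le_of_eq ?_) s2'
        refine Finset.sum_congr rfl fun i _ => ?_
        rw [Matrix.mul_neg, Matrix.neg_mul, Matrix.neg_apply, Complex.neg_re, abs_neg])
      refine (abs_sub _ _).trans ?_
      linarith
    have b2 : |qs A₁ D₁ A₂ D₂ c e| ≤ ((2 / Real.pi) * K₁ + (2 / Real.pi) * K₂) * (1 / e) := by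
      unfold qs
      refine (abs_add_le _ _).trans ?_
      rw [add_mul]
      exact add_le_add (bq D₁ K₁ hK₁ (fun c hc e he => (hb₁ c hc e he).2.2) c hc e he)
        (bq (-D₁) K₂ hK₂ (fun c hc e he => (hb₂ c hc e he).2.2) c hc e he)
    have he' : 0 < 1 / e := by positivity
    rcases le_total e (1 / e) with hle | hle
    · rw [min_eq_left hle]
      nlinarith [mul_nonneg pK₁ he.le, mul_nonneg pK₂ he.le]
    · rw [min_eq_right hle]
      nlinarith [mul_nonneg pT he'.le]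
  · -- the value
    intro c hc
    obtain ⟨U, x, hU, hU', hX⟩ := exists_UX h₁ c
    obtain ⟨V, y, hV, hV', hY⟩ := exists_UX h₁' c
    have hx : ∀ i, 0 < x i := MELA.eig_pos hU hU' hX (Xc_posDef h₁ hc)
    have hy : ∀ i, 0 < y i := MELA.eig_pos hV hV' hY (Xc_posDef h₁' hc)
    have hform := form c hc U V x y hU hU' hV hV' hX hY
    have e1 : ∀ e ∈ Ioi (0 : ℝ), e ^ (-α) * qs A₁ D₁ A₂ D₂ c e =
        (∑ i, ((Uᴴ * D₁ * U) i i).re * (e ^ (-α) * (sy A₂ D₂ (e * x i) c - s0 α A₂ D₂ c))) -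
          ∑ i, ((Vᴴ * D₁ * V) i i).re * (e ^ (-α) * (sy A₂ D₂ (e * y i) c - s0 α A₂ D₂ c)) := by
      intro e he
      rw [hform e (le_of_lt he) (s0 α A₂ D₂ c), mul_sub, Finset.mul_sum, Finset.mul_sum]
      congr 1 <;>
      · refine Finset.sum_congr rfl fun i _ => ?_
        ring
    have i1 : ∀ i, IntegrableOn (fun e : ℝ => ((Uᴴ * D₁ * U) i i).re *
        (e ^ (-α) * (sy A₂ D₂ (e * x i) c - s0 α A₂ D₂ c))) (Ioi 0) :=
      fun i => (hS c hc (x i) (hx i)).1.const_mul _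
    have i2 : ∀ i, IntegrableOn (fun e : ℝ => ((Vᴴ * D₁ * V) i i).re *
        (e ^ (-α) * (sy A₂ D₂ (e * y i) c - s0 α A₂ D₂ c))) (Ioi 0) :=
      fun i => (hS c hc (y i) (hy i)).1.const_mul _
    have j1 : IntegrableOn (fun e : ℝ => ∑ i, ((Uᴴ * D₁ * U) i i).re *
        (e ^ (-α) * (sy A₂ D₂ (e * x i) c - s0 α A₂ D₂ c))) (Ioi 0) :=
      integrable_finsetSum _ fun i _ => i1 i
    have j2 : IntegrableOn (fun e : ℝ => ∑ i, ((Vᴴ * D₁ * V) i i).re *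
        (e ^ (-α) * (sy A₂ D₂ (e * y i) c - s0 α A₂ D₂ c))) (Ioi 0) :=
      integrable_finsetSum _ fun i _ => i2 i
    refine ⟨(integrableOn_congr_fun e1 measurableSet_Ioi).2 (j1.sub j2), ?_⟩
    rw [setIntegral_congr_fun measurableSet_Ioi e1, integral_sub j1 j2,
      integral_finsetSum _ fun i _ => i1 i, integral_finsetSum _ fun i _ => i2 i]
    have f1 := fun i => (hS c hc (x i) (hx i)).2
    have f2 := fun i => (hS c hc (y i) (hy i)).2
    simp only [integral_const_mul, f1, f2]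
    have := hcc c hc U V x y hU hU' hV hV' hX hY
    have e2 : ∀ (b z : ι → ℝ), ∑ i, b i * (z i ^ (α - 1) * S c) = (∑ i, b i * z i ^ (α - 1)) * S c := by
      intro b z
      rw [Finset.sum_mul]
      refine Finset.sum_congr rfl fun i _ => ?_
      ring
    rw [e2 (fun i => ((Uᴴ * D₁ * U) i i).re) x, e2 (fun i => ((Vᴴ * D₁ * V) i i).re) y,
      ← sub_mul, this]
    ring

end Pool.Agent.A1W
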