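import Pool.Agent.Lib_helper59.A1.States
import Pool.Agent.Lib_helper59.A1.Kap
import Pool.Agent.Lib_helper59.A1.Mel
import Pool.Agent.Lib_helper32.A1.WiStmt
import Pool.Agent.Lib_helper8.A1.IntS
import Pool.Agent.Lib_helper66.A1.BndS
import Pool.Agent.Lib_helper50.A1.FubStmt
import Pool.Agent.Lib_helper28.A1.SgnW
import Pool.Agent.Lib_helper54.A1.PR2S
import Pool.Agent.Lib_helper52.A1.Qdi
import Pool.Agent.Lib_helper16.A1.LogStmt
import Pool.Agent.Lib_helper27.A1.Xlm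
import Pool.Agent.Lib_helper57.A1.Fin1

/-!
# MP_859019_mp, project A1: the assembly
-/

set_option autoImplicit false

namespace Pool.Agent.A1W

/-- **Q1 for all pairs**, `0 < α ≤ 2` -/
theorem q1_all : Q1Stmt := by
  have hINT : INTStmt := Lib_helper8.A1.int_stmt bnd_stmt
  have hSGN : SGNStmt := sgn_stmt wi_stmt
  have hPR2 : PR2Stmt := pr2_stmt fub_stmt hINT hSGN kap_stmt bnd_stmt
  have hPRE : PREStmt := pre_stmt fub_stmt sca_stmt kap_stmt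
  have hXLM : XLMStmt := A1.Xlm.xlm_stmt hINT hPR2 hPRE mel_stmt log_stmt ten_stmt
  exact fin1_stmt (xln_stmt hXLM)

/-- **Q1 for all states**, `0 < α ≤ 2` -/
theorem states_all {ι κ : Type} [Fintype ι] [DecidableEq ι] [Fintype κ] [DecidableEq κ]
    {σ₁ : Fin 2 → Matrix ι ι ℂ} {σ₂ : Fin 2 → Matrix κ κ ℂ}
    (h₁ : ∀ x, Lib_helper98.Renyi.IsDensity (σ₁ x)) (h₂ : ∀ x, Lib_helper98.Renyi.IsDensity (σ₂ x))
    (α : ℝ) (h0 : 0 < α) (h2 : α ≤ 2) :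
    Lib_helper98.Renyi.Hsum α σ₁ σ₂ ≤ Lib_helper98.Renyi.Fval α σ₁ σ₂ :=
  states_le q1_all h₁ h₂ α h0 h2

end Pool.Agent.A1W
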