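import Pool.Agent.Lib_helper59.A1.Stmts
import Pool.Agent.Lib_helper18.LDK.St

/-!
# MP_859019_mp, project A1: from pairs of matrices to states
-/

set_option autoImplicit false

open scoped BigOperators ComplexOrder Kronecker MatrixOrder
open MeasureTheory Set Matrix

namespace Pool.Agent.A1W

open Pool.Agent.RC Pool.Agent.LDK Pool.Agent.Lib_helper98.Renyi

/-- Q1 for all states, `0 < α ≤ 2`, from the inequality for pairs -/
theorem states_le (h : Q1Stmt) {ι κ : Type} [Fintype ι] [DecidableEq ι] [Fintype κ]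
    [DecidableEq κ] {σ₁ : Fin 2 → Matrix ι ι ℂ} {σ₂ : Fin 2 → Matrix κ κ ℂ}
    (h₁ : ∀ x, IsDensity (σ₁ x)) (h₂ : ∀ x, IsDensity (σ₂ x)) (α : ℝ) (h0 : 0 < α)
    (h2 : α ≤ 2) : Hsum α σ₁ σ₂ ≤ Fval α σ₁ σ₂ := by
  by_cases h1 : α = 1
  · subst h1
    have p₁ := psdPair_state_one h₁
    have p₂ := psdPair_state_one h₂
    apply Hsum_le_Fval_one h₁ h₂
    rw [p₁.GfunOne_eq, p₂.GfunOne_eq, (p₁.kron p₂).GfunOne_eq]
    exact h.2 _ _ _ _ _ _ p₁ p₂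
  · have p₁ := psdPair_state h₁ h0
    have p₂ := psdPair_state h₂ h0
    apply Hsum_le_Fval h₁ h₂ h0 h1
    rw [p₁.Gfun_eq h0, p₂.Gfun_eq h0, (p₁.kron p₂).Gfun_eq h0]
    exact h.1 α h0 h2 h1 _ _ _ _ _ _ p₁ p₂

end Pool.Agent.A1W
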